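import Pool.Agent.Helper797.Arc

/-!
Erdős's arc-length problem on a subinterval `[a,b]` of `[-1,1]`, degree `n = 2`, every `[a,b]`.
-/

set_option autoImplicit false
open Polynomial Set MP_837341_an_797

namespace Pool.Agent.Results.MP_837341_an.Quadratic

/-- the arc-length of the graph of `P` over `[a,b]` -/
noncomputable def arc (a b : ℝ) (P : ℝ[X]) : ℝ :=
  ∫ x in a..b, Real.sqrt (1 + (P.derivative.eval x) ^ 2)

/-- the polynomials of degree at most `n` with `|P| ≤ 1` on `[-1,1]` -/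
def ball (n : ℕ) : Set ℝ[X] := {P | P.natDegree ≤ n ∧ ∀ x ∈ Icc (-1 : ℝ) 1, |P.eval x| ≤ 1}

/-- `E_t(x) = 1 - 2 (x - t)² / (1 + |t|)²` -/
noncomputable def E (t : ℝ) : ℝ[X] := 1 - C (2 / (1 + |t|) ^ 2) * (X - C t) ^ 2

lemma arc_quad (a b α β γ : ℝ) : arc a b (C α * X ^ 2 + C β * X + C γ) = Lr a b α β := by
  unfold arc Lr
  congr 1; ext x; congr 1
  simp
  ring

lemma E_eq (t : ℝ) : E t = C (al t) * X ^ 2 + C (be t) * X + C (ga t) := by
  unfold E al be ga
  apply Polynomial.funext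
  intro x
  simp
  ring

lemma arc_E (a b t : ℝ) : arc a b (E t) = Lr a b (al t) (be t) := by rw [E_eq, arc_quad]

lemma arc_neg (a b : ℝ) (P : ℝ[X]) : arc a b (-P) = arc a b P := by
  unfold arc; congr 1; ext x; congr 1; simp

lemma neg_mem {n : ℕ} {P : ℝ[X]} (h : P ∈ ball n) : -P ∈ ball n := by
  refine ⟨by rw [natDegree_neg]; exact h.1, fun x hx => ?_⟩
  rw [eval_neg, abs_neg]; exact h.2 x hx

lemma E_mem (t : ℝ) (ht : t ∈ Icc (-1 : ℝ) 1) : E t ∈ ball 2 := by
  refine ⟨?_, fun x hx => ?_⟩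
  · rw [E_eq]; compute_degree
  · have hpos : 0 < 1 + |t| := by positivity
    have hev : (E t).eval x = 1 - 2 * ((x - t) ^ 2 / (1 + |t|) ^ 2) := by
      unfold E; simp; ring
    have h1 : |x - t| ≤ 1 + |t| := by
      calc |x - t| ≤ |x| + |t| := abs_sub _ _
        _ ≤ 1 + |t| := by
          have := abs_le.mpr hx
          linarith
    have h2 : (x - t) ^ 2 ≤ (1 + |t|) ^ 2 := by
      rw [← sq_abs (x - t)]
      exact pow_le_pow_left₀ (abs_nonneg _) h1 2
    have h3 : (x - t) ^ 2 / (1 + |t|) ^ 2 ≤ 1 := by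
      rw [div_le_one (by positivity)]; exact h2
    have h4 : 0 ≤ (x - t) ^ 2 / (1 + |t|) ^ 2 := by positivity
    rw [hev, abs_le]
    constructor <;> linarith

/-- every `P ∈ B_2` satisfying `arc E_t ≤ arc P` for all `t` is `±E_t` -/
lemma core (a b : ℝ) (hab : a < b) (hb : b ≤ 1) (P : ℝ[X]) (hP : P ∈ ball 2)
    (hmax : ∀ t ∈ Icc (-1 : ℝ) 1, arc a b (E t) ≤ arc a b P) :
    ∃ t ∈ Icc (-1 : ℝ) 1, P = E t ∨ P = -E t := by
  have hd : P.degree ≤ 2 := natDegree_le_iff_degree_le.mp hP.1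
  have hq := eq_quadratic_of_degree_le_two hd
  set α := P.coeff 2 with hα
  set β := P.coeff 1 with hβ
  set γ := P.coeff 0 with hγ
  have hF : ∀ x ∈ Icc (-1 : ℝ) 1, |α * x ^ 2 + β * x + γ| ≤ 1 := by
    intro x hx
    have := hP.2 x hx
    rw [hq] at this
    simpa using this
  have hm : ∀ t ∈ Icc (-1 : ℝ) 1, Lr a b (al t) (be t) ≤ Lr a b α β := by
    intro t ht
    have := hmax t ht
    rw [hq, arc_quad, arc_E] at this
    exact this
  obtain ⟨t, ht, h | h⟩ := main a b α β γ hab hb hF hm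
  · refine ⟨t, ht, Or.inl ?_⟩
    rw [hq, E_eq, h.1, h.2.1, h.2.2]
  · refine ⟨t, ht, Or.inr ?_⟩
    rw [hq, E_eq, h.1, h.2.1, h.2.2]
    simp only [C_neg]; ring

theorem result (a b : ℝ) (ha : -1 ≤ a) (hab : a < b) (hb : b ≤ 1) (P : ℝ[X]) :
    (P ∈ ball 2 ∧ ∀ Q ∈ ball 2, arc a b Q ≤ arc a b P) ↔
      ∃ t ∈ Icc (-1 : ℝ) 1, (P = E t ∨ P = -E t) ∧
        (∀ s ∈ Icc (-1 : ℝ) 1, arc a b (E s) ≤ arc a b (E t)) ∧
        (0 < a + b → t ≤ 0) ∧ (a + b < 0 → 0 ≤ t) ∧
        (0 ≤ a → 1 - 2 * b ≤ -t ∧ -t ≤ max 0 (1 - 2 * a)) ∧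
        (b ≤ 0 → 1 + 2 * a ≤ t ∧ t ≤ max 0 (1 + 2 * b)) := by
  constructor
  · rintro ⟨hP, hmax⟩
    obtain ⟨t, ht, hPt⟩ := core a b hab hb P hP (fun t ht => hmax _ (E_mem t ht))
    have hPe : arc a b P = arc a b (E t) := by
      rcases hPt with h | h
      · rw [h]
      · rw [h, arc_neg]
    have hmt : ∀ s ∈ Icc (-1 : ℝ) 1, arc a b (E s) ≤ arc a b (E t) := by
      intro s hs
      rw [← hPe]; exact hmax _ (E_mem s hs)
    have hmL : ∀ s ∈ Icc (-1 : ℝ) 1, Lr a b (al s) (be s) ≤ Lr a b (al t) (be t) := by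
      intro s hs
      have := hmt s hs
      rwa [arc_E, arc_E] at this
    have hnt : -t ∈ Icc (-1 : ℝ) 1 := ⟨by linarith [ht.2], by linarith [ht.1]⟩
    have hmR : ∀ s ∈ Icc (-1 : ℝ) 1,
        Lr (-b) (-a) (al s) (be s) ≤ Lr (-b) (-a) (al (-t)) (be (-t)) := by
      intro s hs
      have h1 := Lr_reflE a b (-s)
      rw [neg_neg] at h1
      rw [h1, Lr_reflE]
      exact hmL (-s) ⟨by linarith [hs.2], by linarith [hs.1]⟩
    refine ⟨t, ht, hPt, hmt, ?_, ?_, ?_, ?_⟩
    · intro h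
      by_contra hc
      push Not at hc
      have := signB a b t h hab hc
      have := hmL (-t) hnt
      linarith
    · intro h
      by_contra hc
      push Not at hc
      have h1 := signB (-b) (-a) (-t) (by linarith) (by linarith) (by linarith)
      rw [neg_neg] at h1
      have h2 := hmR t ht
      linarith
    · intro h
      exact (loc a b t h hab hb ht hmL).2
    · intro h
      have h1 := loc (-b) (-a) (-t) (by linarith) (by linarith) (by linarith) hnt hmR
      rw [neg_neg] at h1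
      refine ⟨by linarith [h1.2.1], ?_⟩
      have := h1.2.2
      rwa [show 1 - 2 * -b = 1 + 2 * b by ring] at this
  · rintro ⟨t, ht, hPt, hmt, -⟩
    have hPm : P ∈ ball 2 := by
      rcases hPt with h | h
      · rw [h]; exact E_mem t ht
      · rw [h]; exact neg_mem (E_mem t ht)
    have hPe : arc a b P = arc a b (E t) := by
      rcases hPt with h | h
      · rw [h]
      · rw [h, arc_neg]
    refine ⟨hPm, fun Q hQ => ?_⟩
    by_contra hc
    push Not at hc
    rw [hPe] at hc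
    obtain ⟨s, hs, h⟩ := core a b hab hb Q hQ (fun s hs => (hmt s hs).trans hc.le)
    have hQe : arc a b Q = arc a b (E s) := by
      rcases h with h | h
      · rw [h]
      · rw [h, arc_neg]
    have := hmt s hs
    linarith

end Pool.Agent.Results.MP_837341_an.Quadratic
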